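import Mathlib

/-!
`H_1(L, ℤ) = 0` exactly for perfect groups; cones and orders; free groups map onto `ℤ`.
-/

set_option autoImplicit false

namespace Pool.Agent.HGR

open scoped TensorProduct

/-- `H_1(L, ℤ) = 0` iff `L` is perfect. -/
theorem h1_iff (L : Type) [Group L] :
    Subsingleton (groupHomology (Rep.trivial ℤ L ℤ) 1) ↔ commutator L = ⊤ := by
  have e : groupHomology (Rep.trivial ℤ L ℤ) 1 ≃+ (Additive (Abelianization L)) ⊗[ℤ] ℤ :=
    groupHomology.H1AddEquivOfIsTrivial (Rep.trivial ℤ L ℤ)
  have e2 : (Additive (Abelianization L)) ⊗[ℤ] ℤ ≃+ Additive (Abelianization L) :=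
    (TensorProduct.rid ℤ (Additive (Abelianization L))).toAddEquiv
  rw [(e.trans e2).toEquiv.subsingleton_congr]
  constructor
  · intro h
    rw [Subgroup.eq_top_iff']
    intro g
    have h1 : (Abelianization.of g : Abelianization L) = Abelianization.of 1 :=
      Additive.ofMul.injective (Subsingleton.elim _ _)
    rw [map_one] at h1
    exact (QuotientGroup.eq_one_iff g).1 h1
  · intro h
    refine ⟨fun a b => ?_⟩
    have key : ∀ x : Abelianization L, x = 1 := by
      intro x
      obtain ⟨g, rfl⟩ := QuotientGroup.mk_surjective x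
      exact (QuotientGroup.eq_one_iff g).2 (h ▸ Subgroup.mem_top g)
    exact Additive.toMul.injective ((key _).trans (key _).symm)

end Pool.Agent.HGR
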