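import Mathlib

/-!
Perfect groups without homology from degree 2 on are acyclic, and conversely.
-/

set_option autoImplicit false

open CategoryTheory TensorProduct

namespace Pool.Agent.HGR

/-- the abelianization of a perfect group is trivial -/
theorem subsingleton_ab {L : Type} [Group L] (hp : commutator L = ⊤) : Subsingleton (Abelianization L) := by
  refine ⟨fun x y => ?_⟩
  have key : ∀ x : Abelianization L, x = 1 := by
    intro x
    obtain ⟨g, rfl⟩ := QuotientGroup.mk_surjective x
    change Abelianization.of g = 1
    rw [← MonoidHom.mem_ker, Abelianization.ker_of, hp]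
    exact Subgroup.mem_top g
  rw [key x, key y]

theorem acyclic (L : Type) [Group L] (h2 : ∀ (A : Rep.{0} ℤ L) (n : ℕ), 2 ≤ n → Subsingleton (groupHomology A n))
    (hp : commutator L = ⊤) : ∀ n, 1 ≤ n → Subsingleton (groupHomology (Rep.trivial ℤ L ℤ) n) := by
  intro n hn
  rcases Nat.lt_or_ge n 2 with h | h
  · have h1 : n = 1 := by omega
    subst h1
    have := subsingleton_ab hp
    have hs : Subsingleton ((Additive (Abelianization L)) ⊗[ℤ] (Rep.trivial ℤ L ℤ)) := by
      refine ⟨fun x y => ?_⟩
      have key : ∀ x : (Additive (Abelianization L)) ⊗[ℤ] (Rep.trivial ℤ L ℤ), x = 0 := by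
        intro x
        induction x using TensorProduct.induction_on with
        | zero => rfl
        | tmul a b =>
          have : a = 0 := Subsingleton.elim _ _
          rw [this, TensorProduct.zero_tmul]
        | add a b ha hb => rw [ha, hb, add_zero]
      rw [key x, key y]
    exact (groupHomology.H1AddEquivOfIsTrivial (Rep.trivial ℤ L ℤ)).toEquiv.subsingleton
  · exact h2 _ n h

/-- vanishing of the first homology with integer coefficients means perfect -/
theorem perfect_of_H1 (L : Type) [Group L] (h : Subsingleton (groupHomology (Rep.trivial ℤ L ℤ) 1)) :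
    commutator L = ⊤ := by
  have hs : Subsingleton ((Additive (Abelianization L)) ⊗[ℤ] (Rep.trivial ℤ L ℤ)) :=
    (groupHomology.H1AddEquivOfIsTrivial (Rep.trivial ℤ L ℤ)).symm.toEquiv.subsingleton
  have hs' : Subsingleton ((Additive (Abelianization L)) ⊗[ℤ] ℤ) := hs
  have hA : Subsingleton (Additive (Abelianization L)) :=
    (TensorProduct.rid ℤ (Additive (Abelianization L))).symm.toEquiv.subsingleton
  rw [eq_top_iff]
  intro g _
  rw [← Abelianization.ker_of, MonoidHom.mem_ker]
  have h3 : Additive.ofMul (Abelianization.of g) = Additive.ofMul (1 : Abelianization L) :=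
    @Subsingleton.elim _ hA _ _
  exact Additive.ofMul.injective h3

/-- a perfect free group is trivial -/
theorem trivial_of_free_perfect (L : Type) [Group L] [IsFreeGroup L] (hp : commutator L = ⊤) :
    Subsingleton L := by
  have hab := subsingleton_ab hp
  have hgen : IsEmpty (IsFreeGroup.Generators L) := by
    by_contra hne
    rw [not_isEmpty_iff] at hne
    obtain ⟨x⟩ := hne
    classical
    let f : L →* Multiplicative ℤ := IsFreeGroup.lift (fun _ => Multiplicative.ofAdd (1 : ℤ))
    have h1 : f (IsFreeGroup.of x) = Multiplicative.ofAdd 1 := IsFreeGroup.lift_of _ _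
    have h2 : f (IsFreeGroup.of x) = Abelianization.lift f (Abelianization.of (IsFreeGroup.of x)) :=
      (Abelianization.lift_apply_of f _).symm
    have h3 : Abelianization.of (IsFreeGroup.of x) = (1 : Abelianization L) := Subsingleton.elim _ _
    rw [h3, map_one] at h2
    rw [h2] at h1
    have h4 : (0 : ℤ) = 1 := Multiplicative.ofAdd.injective h1
    norm_num at h4
  have e : FreeGroup (IsFreeGroup.Generators L) ≃* L := IsFreeGroup.mulEquiv L
  have : Subsingleton (FreeGroup (IsFreeGroup.Generators L)) := by infer_instance
  exact e.symm.toEquiv.subsingleton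

end Pool.Agent.HGR
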