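import Mathlib

/-!
The Burns–Hale criterion: a group all of whose nontrivial finitely generated subgroups have a
nontrivial left orderable quotient is left orderable.
-/

set_option autoImplicit false

namespace Pool.Agent.HGR

/-- A positive cone of a left order. -/
def IsCone {G : Type*} [Group G] (P : G → Prop) : Prop :=
  (∀ a b, P a → P b → P (a * b)) ∧ (∀ a, a ≠ 1 → P a ∨ P a⁻¹) ∧ ∀ a, P a → ¬ P a⁻¹

/-- The sign choice `ε` on `S`: no product of the elements `s ^ ε(s)` is `1`. -/
def GoodSign {G : Type*} [Group G] (S : Finset G) (e : G → Bool) : Prop :=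
  (1 : G) ∉ Subsemigroup.closure {x : G | ∃ s ∈ S, s ≠ 1 ∧ x = if e s then s else s⁻¹}

theorem one_not {G : Type*} [Group G] {P : G → Prop} (hP : IsCone P) : ¬ P 1 := fun h =>
  hP.2.2 1 h (by rwa [inv_one])

/-- finite step -/
theorem exists_sign {G : Type*} [Group G]
    (h : ∀ L : Subgroup G, L.FG → L ≠ ⊥ → ∃ (Q : Type) (_ : Group Q) (P : Q → Prop) (f : L →* Q),
      IsCone P ∧ f ≠ 1) (n : ℕ) :
    ∀ S : Finset G, S.card ≤ n → ∃ e : G → Bool, GoodSign S e := by
  classical
  induction n with
  | zero =>
    intro S hS
    have : S = ∅ := Finset.card_eq_zero.1 (Nat.le_zero.1 hS)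
    subst this
    refine ⟨fun _ => true, ?_⟩
    intro hmem
    have hempty : {x : G | ∃ s ∈ (∅ : Finset G), s ≠ 1 ∧ x = if (fun _ => true) s then s else s⁻¹}
        = ∅ := by
      ext x
      simp
    rw [hempty, Subsemigroup.closure_empty] at hmem
    exact Subsemigroup.notMem_bot hmem
  | succ n ih =>
    intro S hS
    by_cases hall : ∀ s ∈ S, s = 1
    · refine ⟨fun _ => true, ?_⟩
      intro hmem
      have hempty : {x : G | ∃ s ∈ S, s ≠ 1 ∧ x = if (fun _ => true) s then s else s⁻¹}
          = ∅ := by
        ext x
        constructor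
        · rintro ⟨s, hs, hs1, -⟩
          exact absurd (hall s hs) hs1
        · intro hx
          exact hx.elim
      rw [hempty, Subsemigroup.closure_empty] at hmem
      exact Subsemigroup.notMem_bot hmem
    · push Not at hall
      obtain ⟨s0, hs0, hs01⟩ := hall
      let L : Subgroup G := Subgroup.closure (S : Set G)
      have hLfg : L.FG := ⟨S, rfl⟩
      have hL : L ≠ ⊥ := by
        intro hbot
        have : s0 ∈ L := Subgroup.subset_closure hs0
        rw [hbot, Subgroup.mem_bot] at this
        exact hs01 this
      obtain ⟨Q, _, P, f, hP, hf⟩ := h L hLfg hL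
      have hmemL : ∀ s ∈ S, s ∈ L := fun s hs => Subgroup.subset_closure hs
      -- value of `f`, extended by `1`
      let F : G → Q := fun g => if hg : g ∈ L then f ⟨g, hg⟩ else 1
      have hF : ∀ (g : G) (hg : g ∈ L), F g = f ⟨g, hg⟩ := fun g hg => dif_pos hg
      -- some generator is not in the kernel
      have hex : ∃ s ∈ S, F s ≠ 1 := by
        by_contra hcon
        push Not at hcon
        apply hf
        have key : ∀ (g : G) (hg : g ∈ L), f ⟨g, hg⟩ = 1 := by
          intro g hg
          induction hg using Subgroup.closure_induction with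
          | mem x hx => rw [← hF x (hmemL x hx)]; exact hcon x hx
          | one => exact map_one f
          | mul x y hx hy hx' hy' =>
            have : (⟨x * y, L.mul_mem hx hy⟩ : L) = ⟨x, hx⟩ * ⟨y, hy⟩ := rfl
            rw [this, map_mul, hx', hy', one_mul]
          | inv x hx hx' =>
            have : (⟨x⁻¹, L.inv_mem hx⟩ : L) = ⟨x, hx⟩⁻¹ := rfl
            rw [this, map_inv, hx', inv_one]
        ext ⟨g, hg⟩
        exact key g hg
      obtain ⟨s1, hs1, hs1F⟩ := hex
      let S0 : Finset G := S.filter fun s => F s = 1
      have hcard : S0.card ≤ n := by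
        have hlt : S0 ⊂ S := by
          refine Finset.filter_ssubset.2 ⟨s1, hs1, hs1F⟩
        have := Finset.card_lt_card hlt
        omega
      obtain ⟨e0, he0⟩ := ih S0 hcard
      let e : G → Bool := fun s => if F s = 1 then e0 s else decide (P (F s))
      refine ⟨e, ?_⟩
      -- all elements of the semigroup are in `L`, and their value is positive, or it is `1` and
      -- they are in the smaller semigroup
      have key : ∀ x ∈ Subsemigroup.closure {x : G | ∃ s ∈ S, s ≠ 1 ∧ x = if e s then s else s⁻¹},
          ∃ hx : x ∈ L, P (f ⟨x, hx⟩) ∨ (f ⟨x, hx⟩ = 1 ∧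
            x ∈ Subsemigroup.closure {x : G | ∃ s ∈ S0, s ≠ 1 ∧ x = if e0 s then s else s⁻¹}) := by
        intro x hx
        induction hx using Subsemigroup.closure_induction with
        | mem x hx =>
          obtain ⟨s, hs, hs1, rfl⟩ := hx
          have hsL := hmemL s hs
          by_cases hF1 : F s = 1
          · have hes : e s = e0 s := if_pos hF1
            have hxL : (if e s then s else s⁻¹) ∈ L := by
              split_ifs
              · exact hsL
              · exact L.inv_mem hsL
            refine ⟨hxL, Or.inr ⟨?_, ?_⟩⟩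
            · have h1 : f ⟨s, hsL⟩ = 1 := by rw [← hF s hsL]; exact hF1
              by_cases hb : e s = true
              · have : (⟨if e s then s else s⁻¹, hxL⟩ : L) = ⟨s, hsL⟩ := by
                  apply Subtype.ext
                  simp [hb]
                rw [this, h1]
              · have : (⟨if e s then s else s⁻¹, hxL⟩ : L) = ⟨s, hsL⟩⁻¹ := by
                  apply Subtype.ext
                  simp [hb]
                rw [this, map_inv, h1, inv_one]
            · apply Subsemigroup.subset_closure
              refine ⟨s, Finset.mem_filter.2 ⟨hs, hF1⟩, hs1, ?_⟩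
              rw [hes]
          · have hxL : (if e s then s else s⁻¹) ∈ L := by
              split_ifs
              · exact hsL
              · exact L.inv_mem hsL
            refine ⟨hxL, Or.inl ?_⟩
            have hes : e s = decide (P (F s)) := if_neg hF1
            by_cases hPF : P (F s)
            · have : (⟨if e s then s else s⁻¹, hxL⟩ : L) = ⟨s, hsL⟩ := by
                apply Subtype.ext
                simp [hes, hPF]
              rw [this, ← hF s hsL]
              exact hPF
            · have : (⟨if e s then s else s⁻¹, hxL⟩ : L) = ⟨s, hsL⟩⁻¹ := by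
                apply Subtype.ext
                simp [hes, hPF]
              rw [this, map_inv, ← hF s hsL]
              exact (hP.2.1 _ hF1).resolve_left hPF
        | mul x y hx hy hx' hy' =>
          obtain ⟨hxL, hx2⟩ := hx'
          obtain ⟨hyL, hy2⟩ := hy'
          refine ⟨L.mul_mem hxL hyL, ?_⟩
          have hmul : (⟨x * y, L.mul_mem hxL hyL⟩ : L) = ⟨x, hxL⟩ * ⟨y, hyL⟩ := rfl
          rw [hmul, map_mul]
          rcases hx2 with hx2 | ⟨hx2, hx3⟩
          · rcases hy2 with hy2 | ⟨hy2, hy3⟩
            · exact Or.inl (hP.1 _ _ hx2 hy2)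
            · left
              rw [hy2, mul_one]
              exact hx2
          · rcases hy2 with hy2 | ⟨hy2, hy3⟩
            · left
              rw [hx2, one_mul]
              exact hy2
            · right
              refine ⟨by rw [hx2, hy2, one_mul], Subsemigroup.mul_mem _ hx3 hy3⟩
      intro hone
      obtain ⟨h1L, h1 | ⟨-, h1⟩⟩ := key 1 hone
      · have : (⟨1, h1L⟩ : L) = 1 := rfl
        rw [this, map_one] at h1
        exact one_not hP h1
      · exact he0 h1

/-- Burns–Hale -/
theorem burns_hale {G : Type*} [Group G]
    (h : ∀ L : Subgroup G, L.FG → L ≠ ⊥ → ∃ (Q : Type) (_ : Group Q) (P : Q → Prop) (f : L →* Q),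
      IsCone P ∧ f ≠ 1) : ∃ P : G → Prop, IsCone P := by
  classical
  choose e he using fun S : Finset G => exists_sign h S.card S le_rfl
  let Pos : Finset G → Subsemigroup G := fun S =>
    Subsemigroup.closure {x : G | ∃ s ∈ S, s ≠ 1 ∧ x = if e S s then s else s⁻¹}
  let U : Ultrafilter (Finset G) := Ultrafilter.of Filter.atTop
  have hU : (U : Filter (Finset G)) ≤ Filter.atTop := Ultrafilter.of_le _
  refine ⟨fun g => ∀ᶠ S in (U : Filter (Finset G)), g ∈ Pos S, ?_, ?_, ?_⟩
  · intro a b ha hb
    filter_upwards [ha, hb] with S h1 h2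
    exact (Pos S).mul_mem h1 h2
  · intro a ha
    have h1 : ∀ᶠ S in (U : Filter (Finset G)), a ∈ Pos S ∨ a⁻¹ ∈ Pos S := by
      have h2 : ∀ᶠ S in (Filter.atTop : Filter (Finset G)), a ∈ S := by
        filter_upwards [Filter.eventually_ge_atTop ({a} : Finset G)] with S hS
        exact hS (Finset.mem_singleton_self a)
      filter_upwards [hU h2] with S hS
      by_cases hb : e S a = true
      · left
        apply Subsemigroup.subset_closure
        exact ⟨a, hS, ha, by simp [hb]⟩
      · right
        apply Subsemigroup.subset_closure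
        exact ⟨a, hS, ha, by simp [hb]⟩
    exact Ultrafilter.eventually_or.1 h1
  · intro a ha hb
    obtain ⟨S, h1, h2⟩ := (ha.and hb).exists
    have := (Pos S).mul_mem h1 h2
    rw [mul_inv_cancel] at this
    exact he S this

end Pool.Agent.HGR
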