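import Mathlib

/-!
Perfect subgroups: the largest perfect subgroup, preimages, maximal proper perfect normal subgroups.
-/

set_option autoImplicit false

namespace Pool.Agent.HGR

variable {G : Type} [Group G]

/-- The subgroup generated by the perfect subgroups of `N`. -/
def core (N : Subgroup G) : Subgroup G := sSup {K : Subgroup G | K ≤ N ∧ ⁅K, K⁆ = K}

theorem core_le (N : Subgroup G) : core N ≤ N := sSup_le fun _ h => h.1

theorem le_core {N K : Subgroup G} (h : K ≤ N) (hK : ⁅K, K⁆ = K) : K ≤ core N :=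
  le_sSup ⟨h, hK⟩

theorem comm_le (K : Subgroup G) : ⁅K, K⁆ ≤ K :=
  Subgroup.commutator_le.2 fun _ hx _ hy =>
    K.mul_mem (K.mul_mem (K.mul_mem hx hy) (K.inv_mem hx)) (K.inv_mem hy)

theorem core_perfect (N : Subgroup G) : ⁅core N, core N⁆ = core N := by
  apply le_antisymm (comm_le _)
  refine sSup_le fun K hK => ?_
  calc K = ⁅K, K⁆ := hK.2.symm
    _ ≤ ⁅core N, core N⁆ := Subgroup.commutator_mono (le_core hK.1 hK.2) (le_core hK.1 hK.2)

theorem core_normal {N : Subgroup G} (hN : N.Normal) : (core N).Normal := by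
  constructor
  intro n hn g
  have h1 : core N ≤ (core N).comap (MulAut.conj g).toMonoidHom := by
    refine sSup_le fun K hK => ?_
    rw [← Subgroup.map_le_iff_le_comap]
    apply le_core
    · rw [Subgroup.map_le_iff_le_comap]
      intro x hx
      exact hN.conj_mem x (hK.1 hx) g
    · rw [← Subgroup.map_commutator, hK.2]
  exact h1 hn

theorem map_commutator_subtype (K : Subgroup G) : (commutator K).map K.subtype = ⁅K, K⁆ := by
  rw [commutator_def, Subgroup.map_commutator, ← MonoidHom.range_eq_map, Subgroup.range_subtype]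

theorem perfect_iff {K : Subgroup G} : commutator K = ⊤ ↔ ⁅K, K⁆ = K := by
  rw [← map_commutator_subtype]
  constructor
  · intro h
    rw [h, ← MonoidHom.range_eq_map, Subgroup.range_subtype]
  · intro h
    apply Subgroup.map_injective K.subtype_injective
    rw [h, ← MonoidHom.range_eq_map, Subgroup.range_subtype]

/-- the preimage of a perfect subgroup under a homomorphism with perfect kernel is perfect -/
theorem comap_perfect {M : Subgroup G} [M.Normal] (hM : ⁅M, M⁆ = M) {L : Subgroup (G ⧸ M)}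
    (hL : ⁅L, L⁆ = L) : ⁅L.comap (QuotientGroup.mk' M), L.comap (QuotientGroup.mk' M)⁆ =
      L.comap (QuotientGroup.mk' M) := by
  have hsurj : Function.Surjective (QuotientGroup.mk' M) := QuotientGroup.mk'_surjective M
  have hker : M ≤ L.comap (QuotientGroup.mk' M) := by
    intro x hx
    have h1 : QuotientGroup.mk' M x = 1 := (QuotientGroup.eq_one_iff x).2 hx
    show QuotientGroup.mk' M x ∈ L
    rw [h1]
    exact L.one_mem
  apply le_antisymm (comm_le _)
  intro x hx
  have h1 : QuotientGroup.mk' M x ∈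
      (⁅L.comap (QuotientGroup.mk' M), L.comap (QuotientGroup.mk' M)⁆).map
        (QuotientGroup.mk' M) := by
    rw [Subgroup.map_commutator, Subgroup.map_comap_eq_self_of_surjective hsurj, hL]
    exact hx
  obtain ⟨y, hy, hxy⟩ := h1
  have h2 : y⁻¹ * x ∈ M := QuotientGroup.eq.1 hxy
  have h3 : M ≤ ⁅L.comap (QuotientGroup.mk' M), L.comap (QuotientGroup.mk' M)⁆ := by
    calc M = ⁅M, M⁆ := hM.symm
      _ ≤ _ := Subgroup.commutator_mono hker hker
  have h4 := Subgroup.mul_mem _ hy (h3 h2)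
  rwa [mul_inv_cancel_left] at h4

/-- a nontrivial finitely generated group has a maximal proper perfect normal subgroup -/
theorem exists_max (hfg : Group.FG G) (hne : ∃ x : G, x ≠ 1) :
    ∃ M : Subgroup G, M.Normal ∧ ⁅M, M⁆ = M ∧ M ≠ ⊤ ∧
      ∀ M' : Subgroup G, M'.Normal → ⁅M', M'⁆ = M' → M' ≠ ⊤ → M ≤ M' → M' = M := by
  classical
  obtain ⟨T, hT⟩ := Group.fg_def.1 hfg
  have hbot : (⊥ : Subgroup G) ≠ ⊤ := by
    intro h
    obtain ⟨x, hx⟩ := hne
    have : x ∈ (⊥ : Subgroup G) := h ▸ Subgroup.mem_top x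
    exact hx (Subgroup.mem_bot.1 this)
  have hz : ∀ c ⊆ {M : Subgroup G | M.Normal ∧ ⁅M, M⁆ = M ∧ M ≠ ⊤}, IsChain (· ≤ ·) c → ∀ y ∈ c,
      ∃ ub ∈ {M : Subgroup G | M.Normal ∧ ⁅M, M⁆ = M ∧ M ≠ ⊤}, ∀ z ∈ c, z ≤ ub := by
    intro c hc hchain y hy
    have hdir : DirectedOn (· ≤ ·) c := hchain.directedOn
    refine ⟨sSup c, ⟨?_, ?_, ?_⟩, fun z hz => le_sSup hz⟩
    · constructor
      intro n hn g
      rw [Subgroup.mem_sSup_of_directedOn ⟨y, hy⟩ hdir] at hn ⊢
      obtain ⟨K, hK, hnK⟩ := hn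
      exact ⟨K, hK, (hc hK).1.conj_mem n hnK g⟩
    · apply le_antisymm (comm_le _)
      refine sSup_le fun K hK => ?_
      calc K = ⁅K, K⁆ := (hc hK).2.1.symm
        _ ≤ _ := Subgroup.commutator_mono (le_sSup hK) (le_sSup hK)
    · intro htop
      -- all generators are in one member
      have key : ∀ S : Finset G, ∃ K ∈ c, (S : Set G) ⊆ K := by
        intro S
        induction S using Finset.induction_on with
        | empty => exact ⟨y, hy, by simp⟩
        | insert a S ha ih =>
          obtain ⟨K, hK, hS⟩ := ih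
          have h1 : a ∈ sSup c := htop ▸ Subgroup.mem_top a
          rw [Subgroup.mem_sSup_of_directedOn ⟨y, hy⟩ hdir] at h1
          obtain ⟨K', hK', ha'⟩ := h1
          obtain ⟨K'', hK'', h2, h3⟩ := hdir K hK K' hK'
          refine ⟨K'', hK'', ?_⟩
          intro x hx
          rw [Finset.coe_insert] at hx
          rcases hx with rfl | hx
          · exact h3 ha'
          · exact h2 (hS hx)
      obtain ⟨K, hK, hTK⟩ := key T
      apply (hc hK).2.2
      rw [eq_top_iff, ← hT]
      exact (Subgroup.closure_le K).2 hTK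
  obtain ⟨M, -, hM⟩ := zorn_le_nonempty₀ _ hz ⊥ ⟨inferInstance, by simp, hbot⟩
  refine ⟨M, hM.prop.1, hM.prop.2.1, hM.prop.2.2, ?_⟩
  intro M' h1 h2 h3 h4
  exact (hM.eq_of_le ⟨h1, h2, h3⟩ h4).symm

end Pool.Agent.HGR
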