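import Pool.Agent.HGR.BH
import Pool.Agent.HGR.Ab
import Pool.Agent.H5L.L3
import Pool.Agent.H5.FreeQuot
import Pool.Agent.H5.Shap
import Pool.Agent.H5L.C3

/-!
Groups of homological dimension at most one: locally free, left orderable, locally graded.
-/

set_option autoImplicit false

open Pool.Agent

namespace Pool.Agent.HGR

/-- the positive integers -/
theorem cone_int : IsCone (fun x : Multiplicative ℤ => 0 < Multiplicative.toAdd x) := by
  refine ⟨?_, ?_, ?_⟩
  · intro a b ha hb
    show 0 < Multiplicative.toAdd (a * b)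
    rw [toAdd_mul]
    exact add_pos ha hb
  · intro a ha
    have h1 : Multiplicative.toAdd a ≠ 0 := fun h => ha (by
      apply Multiplicative.toAdd.injective
      rw [h, toAdd_one])
    rcases lt_or_gt_of_ne h1 with h | h
    · right
      show 0 < Multiplicative.toAdd a⁻¹
      rw [toAdd_inv]
      omega
    · exact Or.inl h
  · intro a ha hb
    have h1 : 0 < Multiplicative.toAdd a := ha
    have h2 : 0 < Multiplicative.toAdd a⁻¹ := hb
    rw [toAdd_inv] at h2
    omega

/-- the positive elements of a left ordered group -/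
theorem cone_of_order {Q : Type*} [Group Q] [LinearOrder Q]
    (h : ∀ a b c : Q, a < b → c * a < c * b) : IsCone (fun x : Q => 1 < x) := by
  refine ⟨?_, ?_, ?_⟩
  · intro a b ha hb
    have h1 := h 1 b a hb
    rw [mul_one] at h1
    exact lt_trans ha h1
  · intro a ha
    rcases lt_trichotomy 1 a with h1 | h1 | h1
    · exact Or.inl h1
    · exact absurd h1.symm ha
    · right
      have h2 := h a 1 a⁻¹ h1
      rw [inv_mul_cancel, mul_one] at h2
      exact h2
  · intro a ha hb
    have h2 := h 1 a a⁻¹ ha
    rw [inv_mul_cancel, mul_one] at h2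
    exact lt_asymm hb h2

open Classical in
/-- the order of a cone -/
theorem order_of_cone {G : Type*} [Group G] {P : G → Prop} (hP : IsCone P) :
    ∃ _ : LinearOrder G, ∀ a b c : G, a < b → c * a < c * b := by
  have hne : ∀ a b : G, P (a⁻¹ * b) → ¬ P (b⁻¹ * a) := by
    intro a b h1 h2
    have h3 : (a⁻¹ * b)⁻¹ = b⁻¹ * a := by group
    exact hP.2.2 _ h1 (by rw [h3]; exact h2)
  let inst : LinearOrder G :=
    { le := fun a b => a = b ∨ P (a⁻¹ * b)
      lt := fun a b => P (a⁻¹ * b)
      le_refl := fun a => Or.inl rfl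
      le_trans := by
        rintro a b c (rfl | h1) (rfl | h2)
        · exact Or.inl rfl
        · exact Or.inr h2
        · exact Or.inr h1
        · right
          have h3 : a⁻¹ * c = (a⁻¹ * b) * (b⁻¹ * c) := by group
          rw [h3]
          exact hP.1 _ _ h1 h2
      lt_iff_le_not_ge := by
        intro a b
        constructor
        · intro h1
          refine ⟨Or.inr h1, ?_⟩
          rintro (rfl | h2)
          · rw [inv_mul_cancel] at h1
            exact one_not hP h1
          · exact hne _ _ h1 h2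
        · rintro ⟨rfl | h1, h2⟩
          · exact absurd (Or.inl rfl) h2
          · exact h1
      le_antisymm := by
        rintro a b (rfl | h1) (h2 | h2)
        · rfl
        · rfl
        · exact h2.symm
        · exact absurd h2 (hne _ _ h1)
      le_total := by
        intro a b
        by_cases hab : a = b
        · exact Or.inl (Or.inl hab)
        · rcases hP.2.1 (a⁻¹ * b) (fun h => hab (by
            have := inv_mul_eq_one.1 h
            exact this)) with h | h
          · exact Or.inl (Or.inr h)
          · right; right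
            have h3 : (a⁻¹ * b)⁻¹ = b⁻¹ * a := by group
            rw [← h3]; exact h
      toDecidableLE := Classical.decRel _ }
  refine ⟨inst, ?_⟩
  intro a b c hab
  show P ((c * a)⁻¹ * (c * b))
  have h3 : (c * a)⁻¹ * (c * b) = a⁻¹ * b := by group
  rw [h3]
  exact hab

/-- a nontrivial free group maps onto `ℤ` -/
theorem free_z {Q : Type} [Group Q] [IsFreeGroup Q] (h : ∃ x : Q, x ≠ 1) :
    ∃ f : Q →* Multiplicative ℤ, f ≠ 1 := by
  classical
  by_cases hne : Nonempty (IsFreeGroup.Generators Q)
  · obtain ⟨i⟩ := hne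
    refine ⟨IsFreeGroup.lift (fun _ => Multiplicative.ofAdd 1), ?_⟩
    intro hf
    have h1 := DFunLike.congr_fun hf (IsFreeGroup.of i)
    rw [IsFreeGroup.lift_of] at h1
    have h2 := congrArg Multiplicative.toAdd h1
    simp at h2
  · exfalso
    obtain ⟨x, hx⟩ := h
    apply hx
    have : IsEmpty (IsFreeGroup.Generators Q) := not_nonempty_iff.1 hne
    have e := IsFreeGroup.toFreeGroup Q
    apply e.injective
    exact Subsingleton.elim _ _

/-- a nontrivial map to `ℤ` gives a proper subgroup of finite index -/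
theorem index_of_z {L : Type} [Group L] {f : L →* Multiplicative ℤ} (hf : f ≠ 1) :
    ∃ K : Subgroup L, K.FiniteIndex ∧ K ≠ ⊤ := by
  classical
  obtain ⟨g, hg⟩ : ∃ g, f g ≠ 1 := by
    by_contra hcon
    push Not at hcon
    exact hf (MonoidHom.ext hcon)
  set m : ℤ := Multiplicative.toAdd (f g) with hm
  have hm0 : m ≠ 0 := fun h => hg (by
    apply Multiplicative.toAdd.injective
    rw [← hm, h, toAdd_one])
  let n : ℕ := m.natAbs + 1
  have : NeZero n := ⟨Nat.succ_ne_zero _⟩
  let q : Multiplicative ℤ →* Multiplicative (ZMod n) :=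
    AddMonoidHom.toMultiplicative (Int.castAddHom (ZMod n))
  refine ⟨(q.comp f).ker, ?_, ?_⟩
  · infer_instance
  · intro htop
    have h1 : g ∈ (q.comp f).ker := htop ▸ Subgroup.mem_top g
    rw [MonoidHom.mem_ker] at h1
    have h2 : ((m : ℤ) : ZMod n) = 0 := congrArg Multiplicative.toAdd h1
    rw [ZMod.intCast_zmod_eq_zero_iff_dvd] at h2
    have h3 : (n : ℤ) ≤ |m| := Int.le_of_dvd (abs_pos.2 hm0) ((dvd_abs _ _).2 h2)
    have h4 : (n : ℤ) = |m| + 1 := by
      show ((m.natAbs + 1 : ℕ) : ℤ) = |m| + 1
      push_cast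
      rfl
    omega

/-- a nontrivial map to `ℤ`: not perfect -/
theorem not_perfect_of_z {L : Type} [Group L] {f : L →* Multiplicative ℤ} (hf : f ≠ 1) :
    commutator L ≠ ⊤ := by
  intro h
  apply hf
  ext g
  have h1 : g ∈ f.ker := Abelianization.commutator_subset_ker f (h ▸ Subgroup.mem_top g)
  rw [MonoidHom.mem_ker] at h1
  rw [h1]
  rfl

/-- finitely generated, homological dimension at most one, a proper subgroup of finite index: a
nontrivial map to `ℤ` -/
theorem z_of_index {L : Type} [Group L]
    (h2 : ∀ A : Rep.{0} ℤ L, Subsingleton (groupHomology A 2)) (hfg : Group.FG L)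
    (hK : ∃ K : Subgroup L, K.FiniteIndex ∧ K ≠ ⊤) : ∃ f : L →* Multiplicative ℤ, f ≠ 1 := by
  obtain ⟨K, hK1, hK2⟩ := hK
  obtain ⟨N, hN, h3, -, h4⟩ := H5.finite_residual h2 hfg
  have hex : ∃ x : L ⧸ N, x ≠ 1 := by
    by_contra hcon
    push Not at hcon
    apply hK2
    rw [Subgroup.eq_top_iff']
    intro g
    exact (h3 g).1 ((QuotientGroup.eq_one_iff g).1 (hcon g)) K hK1
  obtain ⟨f, hf⟩ := free_z hex
  refine ⟨f.comp (QuotientGroup.mk' N), ?_⟩
  intro hcon
  apply hf
  refine MonoidHom.ext fun x => ?_
  obtain ⟨g, rfl⟩ := QuotientGroup.mk'_surjective N x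
  exact DFunLike.congr_fun hcon g

/-- a nontrivial finitely generated group that is not perfect has a proper subgroup of finite
index -/
theorem index_of_not_perfect {L : Type} [Group L] (hfg : Group.FG L)
    (h : commutator L ≠ ⊤) : ∃ K : Subgroup L, K.FiniteIndex ∧ K ≠ ⊤ := by
  classical
  let M := Additive (Abelianization L)
  have hfgA : Group.FG (Abelianization L) := QuotientGroup.fg _
  have hfin : Module.Finite ℤ M := by
    rw [Module.Finite.iff_addGroup_fg]
    exact AddGroup.fg_iff_mul_fg.2 hfgA
  have hnt : Nontrivial M := by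
    by_contra hcon
    rw [not_nontrivial_iff_subsingleton] at hcon
    apply h
    rw [Subgroup.eq_top_iff']
    intro g
    have h1 : (Abelianization.of g : Abelianization L) = Abelianization.of 1 :=
      Additive.ofMul.injective (Subsingleton.elim _ _)
    rw [map_one] at h1
    exact (QuotientGroup.eq_one_iff g).1 h1
  obtain ⟨m, hm, -⟩ := (eq_top_or_exists_le_coatom (⊥ : Submodule ℤ M)).resolve_left bot_ne_top
  have hs : IsSimpleModule ℤ (M ⧸ m) := isSimpleModule_iff_isCoatom.2 hm
  obtain ⟨I, hI, ⟨e⟩⟩ := isSimpleModule_iff_quot_maximal.1 hs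
  have hI0 : I ≠ ⊥ := fun hbot => Ring.ne_bot_of_isMaximal_of_not_isField hI
    Int.not_isField hbot
  have hfq : Finite (ℤ ⧸ I) := Ideal.finiteQuotientOfFreeOfNeBot I hI0
  have hfM : Finite (M ⧸ m) := Finite.of_equiv _ e.toEquiv.symm
  let q : L →* Multiplicative (M ⧸ m) :=
    (AddMonoidHom.toMultiplicative (m.mkQ : M →ₗ[ℤ] M ⧸ m).toAddMonoidHom).comp
      (show L →* Multiplicative M from
        (MulEquiv.refl _ : Abelianization L ≃* Abelianization L).toMonoidHom.comp Abelianization.of)
  refine ⟨q.ker, ?_, ?_⟩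
  · infer_instance
  · intro htop
    apply hm.1
    rw [Submodule.eq_top_iff']
    intro x
    obtain ⟨g, hg⟩ := QuotientGroup.mk_surjective (Additive.toMul x)
    have h1 : g ∈ q.ker := htop ▸ Subgroup.mem_top g
    rw [MonoidHom.mem_ker] at h1
    have h2 : m.mkQ x = 0 := by
      have h3 : x = Additive.ofMul (Abelianization.of g) := by
        apply Additive.toMul.injective
        exact hg.symm
      rw [h3]
      exact congrArg Multiplicative.toAdd h1
    rwa [Submodule.mkQ_apply, Submodule.Quotient.mk_eq_zero] at h2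

end Pool.Agent.HGR
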