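import Mathlib

/-!
# Quotients of groups of homological dimension one by perfect normal subgroups

If `H_n(G, A) = 0` for all `n ≥ 2` and all `A`, and `M` is a perfect normal subgroup, then the same
holds for `G ⧸ M`.
-/

set_option autoImplicit false

open CategoryTheory CategoryTheory.Limits

namespace Pool.Agent.HGR.Q89

variable {k : Type} [CommRing k]

section

variable {Q : Type} [Group Q]

/-- counit of induction from the trivial group -/
noncomputable def cu (A : Rep.{0} k Q) :=
  (Rep.indResAdjunction.{0, 0, 0, 0} k (⊥ : Subgroup Q).subtype).counit.app A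

instance (A : Rep.{0} k Q) : Epi (cu A) := by
  unfold cu
  infer_instance

/-- the short exact sequence `0 → B → P → A → 0` -/
noncomputable def sx (A : Rep.{0} k Q) : ShortComplex (Rep.{0} k Q) :=
  ShortComplex.mk (kernel.ι (cu A)) (cu A) (kernel.condition _)

theorem sx_exact (A : Rep.{0} k Q) : (sx A).ShortExact := by
  have h1 : (sx A).Exact := ShortComplex.exact_kernel (cu A)
  have h2 : Mono (sx A).f := by unfold sx; infer_instance
  have h3 : Epi (sx A).g := by unfold sx; infer_instance
  exact { exact := h1, mono_f := h2, epi_g := h3 }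

theorem sx_zero (A : Rep.{0} k Q) (n : ℕ) : IsZero (groupHomology (sx A).X₂ (n + 1)) := by
  classical
  exact (isZero_groupHomology_succ_of_subsingleton
    ((Rep.resFunctor (⊥ : Subgroup Q).subtype).obj A) n).of_iso
      (groupHomology.indIso (⊥ : Subgroup Q) ((Rep.resFunctor (⊥ : Subgroup Q).subtype).obj A) (n + 1))

/-- dimension shifting for the sequence -/
theorem shift (A : Rep.{0} k Q) (n : ℕ) (h : IsZero (groupHomology (sx A).X₁ (n + 1))) :
    IsZero (groupHomology A (n + 2)) := by
  have h1 := groupHomology.mapShortComplex₃_exact (sx_exact A) (i := n + 2) (j := n + 1) rfl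
  exact h1.isZero_of_both_isZero (sx_zero A (n + 1)) h

end

section

variable {G : Type} [Group G] (M : Subgroup G) [M.Normal]

/-- restriction along the quotient map -/
noncomputable abbrev infl (A : Rep.{0} k (G ⧸ M)) : Rep.{0} k G := Rep.res (QuotientGroup.mk' M) A

instance (A : Rep.{0} k (G ⧸ M)) :
    Representation.IsTrivial ((infl M A).ρ.comp M.subtype) where
  out g := by
    have h : (QuotientGroup.mk' M (g : G)) = 1 := (QuotientGroup.eq_one_iff _).2 g.2
    show A.ρ (QuotientGroup.mk' M (g : G)) = LinearMap.id
    rw [h, map_one]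
    rfl

instance (A : Rep.{0} k (G ⧸ M)) : (Rep.res M.subtype (infl M A)).IsTrivial where
  out g := by
    have h : (QuotientGroup.mk' M (g : G)) = 1 := (QuotientGroup.eq_one_iff _).2 g.2
    show A.ρ (QuotientGroup.mk' M (g : G)) = LinearMap.id
    rw [h, map_one]
    rfl

/-- the quotient representation is the old one -/
noncomputable def backIso (A : Rep.{0} k (G ⧸ M)) : (infl M A).ofQuotient M ≅ A :=
  Rep.mkIso (Representation.Equiv.mk (LinearEquiv.refl k A) (fun g => by
    induction g using QuotientGroup.induction_on with
    | H g => rfl))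

theorem h1_infl (hM : commutator M = ⊤) (A : Rep.{0} k (G ⧸ M))
    (h : IsZero (groupHomology A 1)) : IsZero (groupHomology (infl M A) 1) := by
  have e := groupHomology.H1CoresCoinfOfTrivial_exact (infl M A) M
  refine e.isZero_of_both_isZero ?_ ?_
  · have h1 := groupHomology.H1AddEquivOfIsTrivial (Rep.res M.subtype (infl M A))
    have h2 : Subsingleton (Abelianization M) := by
      refine ⟨fun a b => ?_⟩
      have key : ∀ x : Abelianization M, x = 1 := by
        intro x
        induction x using QuotientGroup.induction_on with
        | H x =>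
          refine (QuotientGroup.eq_one_iff _).2 ?_
          rw [hM]
          exact Subgroup.mem_top _
      rw [key a, key b]
    have h3 : Subsingleton (Additive (Abelianization M)) := h2
    have h4 : Subsingleton (TensorProduct ℤ (Additive (Abelianization M))
        (Rep.res M.subtype (infl M A))) := by
      refine ⟨fun a b => ?_⟩
      have key : ∀ x : TensorProduct ℤ (Additive (Abelianization M))
          (Rep.res M.subtype (infl M A)), x = 0 := by
        intro x
        induction x using TensorProduct.induction_on with
        | zero => rfl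
        | tmul u v => rw [Subsingleton.elim u 0, TensorProduct.zero_tmul]
        | add u v hu hv => rw [hu, hv, add_zero]
      rw [key a, key b]
    have h5 : Subsingleton (groupHomology.H1 (Rep.res M.subtype (infl M A))) :=
      h1.toEquiv.subsingleton
    have h6 : IsZero (groupHomology.H1 (Rep.res M.subtype (infl M A))) :=
      ModuleCat.isZero_of_subsingleton _
    exact h6
  · exact h.of_iso ((groupHomology.functor k (G ⧸ M) 1).mapIso (backIso M A))

theorem h1_surj (A : Rep.{0} k (G ⧸ M)) (h : IsZero (groupHomology (infl M A) 1)) :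
    IsZero (groupHomology A 1) := by
  have h1 : Epi (groupHomology.H1CoresCoinfOfTrivial (infl M A) M).g := inferInstance
  have h2 : IsZero (groupHomology.H1CoresCoinfOfTrivial (infl M A) M).X₃ :=
    IsZero.of_epi (groupHomology.H1CoresCoinfOfTrivial (infl M A) M).g h
  have h3 : IsZero (groupHomology ((infl M A).ofQuotient M) 1) := h2
  exact h3.of_iso ((groupHomology.functor k (G ⧸ M) 1).mapIso (backIso M A).symm)

theorem isZero_quot (hG : ∀ (A : Rep.{0} k G) (n : ℕ), 2 ≤ n → IsZero (groupHomology A n))
    (hM : commutator M = ⊤) :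
    ∀ (n : ℕ) (A : Rep.{0} k (G ⧸ M)), IsZero (groupHomology A (n + 2)) := by
  intro n
  induction n with
  | zero =>
    intro A
    refine shift A 0 (h1_surj M _ ?_)
    have hs : ((sx A).map (Rep.resFunctor (QuotientGroup.mk' M))).ShortExact :=
      (Rep.shortExact_res (QuotientGroup.mk' M)).2 (sx_exact A)
    have h1 := groupHomology.mapShortComplex₁_exact hs (i := 2) (j := 1) rfl
    exact h1.isZero_of_both_isZero (hG _ 2 le_rfl) (h1_infl M hM _ (sx_zero A 0))
  | succ n ih =>
    intro A
    exact shift A (n + 1) (ih _)

/-- the statement with `Subsingleton` -/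
theorem hd_quot' (hG : ∀ (A : Rep.{0} k G) (n : ℕ), 2 ≤ n → Subsingleton (groupHomology A n))
    (hM : commutator M = ⊤) :
    ∀ (A : Rep.{0} k (G ⧸ M)) (n : ℕ), 2 ≤ n → Subsingleton (groupHomology A n) := by
  intro A n hn
  obtain ⟨m, rfl⟩ : ∃ m, n = m + 2 := ⟨n - 2, by omega⟩
  refine ModuleCat.subsingleton_of_isZero (isZero_quot M (fun B j hj => ?_) hM m A)
  have := hG B j hj
  exact ModuleCat.isZero_of_subsingleton _

end

end Pool.Agent.HGR.Q89

namespace Pool.Agent.HGR

/-- The quotient of a group of homological dimension at most one by a perfect normal subgroup has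
homological dimension at most one. -/
theorem hd_quot {G : Type} [Group G]
    (hG : ∀ (A : Rep.{0} ℤ G) (n : ℕ), 2 ≤ n → Subsingleton (groupHomology A n))
    (M : Subgroup G) [M.Normal] (hM : commutator M = ⊤) :
    ∀ (A : Rep.{0} ℤ (G ⧸ M)) (n : ℕ), 2 ≤ n → Subsingleton (groupHomology A n) :=
  Q89.hd_quot' M hG hM

end Pool.Agent.HGR
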