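import Mathlib

/-!
The homological dimension of the quotient by a perfect normal subgroup.
-/

set_option autoImplicit false

open CategoryTheory CategoryTheory.Limits Rep
open scoped TensorProduct

namespace Pool.Agent.HGR

/-- every module is a quotient of one with vanishing homology -/
theorem exists_cover {k : Type} [CommRing k] {Q : Type} [Group Q] (A : Rep.{0} k Q) :
    ∃ (B P : Rep.{0} k Q) (i : B ⟶ P) (p : P ⟶ A) (w : i ≫ p = 0),
      (ShortComplex.mk i p w).ShortExact ∧ ∀ n : ℕ, IsZero (groupHomology P (n + 1)) := by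
  classical
  let p := (Rep.indResAdjunction k (⊥ : Subgroup Q).subtype).counit.app A
  have hp : Epi p := Adjunction.counit_epi_of_R_faithful _ _
  refine ⟨kernel p, _, kernel.ι p, p, kernel.condition p, ?_, ?_⟩
  · exact ShortComplex.ShortExact.mk' (ShortComplex.exact_of_f_is_kernel _ (kernelIsKernel p))
      inferInstance hp
  · intro n
    have e := groupHomology.indIso (⊥ : Subgroup Q)
      ((Rep.resFunctor (⊥ : Subgroup Q).subtype).obj A) (n + 1)
    exact IsZero.of_iso (isZero_groupHomology_succ_of_subsingleton _ n) e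

section

variable {k : Type} [CommRing k] {G : Type} [Group G] (M : Subgroup G) [M.Normal]

instance trivial_res (B : Rep.{0} k (G ⧸ M)) :
    Representation.IsTrivial ((res (QuotientGroup.mk' M) B).ρ.comp M.subtype) where
  out := by
    intro g
    have h1 : QuotientGroup.mk' M (M.subtype g) = 1 := (QuotientGroup.eq_one_iff _).2 g.2
    show B.ρ (QuotientGroup.mk' M (M.subtype g)) = LinearMap.id
    rw [h1, map_one]
    rfl

theorem ofQuotient_res (B : Rep.{0} k (G ⧸ M)) :
    (res (QuotientGroup.mk' M) B).ofQuotient M = B := by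
  have h : ((res (QuotientGroup.mk' M) B).ρ.ofQuotient M) = B.ρ := by
    apply MonoidHom.ext
    intro q
    obtain ⟨g, rfl⟩ := QuotientGroup.mk_surjective q
    rfl
  show Rep.of ((res (QuotientGroup.mk' M) B).ρ.ofQuotient M) = B
  rw [h]

/-- `H₁(M, B) = 0` for trivial modules of perfect groups -/
theorem h1_zero {k : Type} [CommRing k] {M' : Type} [Group M'] (hM : commutator M' = ⊤) (B : Rep.{0} k M')
    [B.IsTrivial] : IsZero (groupHomology B 1) := by
  have h1 : Subsingleton (Abelianization M') := by
    refine ⟨fun a b => ?_⟩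
    have key : ∀ x : Abelianization M', x = 1 := by
      intro x
      obtain ⟨g, rfl⟩ := QuotientGroup.mk_surjective x
      exact (QuotientGroup.eq_one_iff g).2 (hM ▸ Subgroup.mem_top g)
    rw [key a, key b]
  have h2 : Subsingleton ((Additive (Abelianization M')) ⊗[ℤ] B) := by
    refine ⟨fun a b => ?_⟩
    have key : ∀ x : (Additive (Abelianization M')) ⊗[ℤ] B, x = 0 := by
      intro x
      induction x using TensorProduct.induction_on with
      | zero => rfl
      | tmul y z =>
        have : y = 0 := Additive.toMul.injective (Subsingleton.elim _ _)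
        rw [this, TensorProduct.zero_tmul]
      | add y z hy hz => rw [hy, hz, add_zero]
    rw [key a, key b]
  have h3 : Subsingleton (groupHomology B 1) :=
    (groupHomology.H1AddEquivOfIsTrivial B).toEquiv.subsingleton
  exact ModuleCat.isZero_of_subsingleton _

/-- `H₁(G, P) = 0` if `H₁(G/M, P) = 0` and `M` is perfect -/
theorem h1_res_zero (hM : commutator M = ⊤) (P : Rep.{0} k (G ⧸ M))
    (hP : IsZero (groupHomology P 1)) :
    IsZero (groupHomology (res (QuotientGroup.mk' M) P) 1) := by
  have hex := groupHomology.H1CoresCoinfOfTrivial_exact (res (QuotientGroup.mk' M) P) M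
  refine hex.isZero_of_both_zeros ?_ ?_
  · apply IsZero.eq_of_src
    exact h1_zero hM _
  · apply IsZero.eq_of_tgt
    show IsZero (groupHomology ((res (QuotientGroup.mk' M) P).ofQuotient M) 1)
    rw [ofQuotient_res]
    exact hP

/-- `H₁(G, B) = 0` implies `H₁(G/M, B) = 0` -/
theorem h1_quot_zero (B : Rep.{0} k (G ⧸ M))
    (hB : IsZero (groupHomology (res (QuotientGroup.mk' M) B) 1)) :
    IsZero (groupHomology B 1) := by
  have h1 : Epi (groupHomology.H1CoresCoinfOfTrivial (res (QuotientGroup.mk' M) B) M).g :=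
    groupHomology.H1CoresCoinfOfTrivial_g_epi _ M
  have h3 : IsZero (groupHomology.H1CoresCoinfOfTrivial (res (QuotientGroup.mk' M) B) M).X₂ := hB
  have h4 : IsZero (groupHomology.H1CoresCoinfOfTrivial (res (QuotientGroup.mk' M) B) M).X₃ :=
    @IsZero.of_epi _ _ _ _ _ (groupHomology.H1CoresCoinfOfTrivial (res (QuotientGroup.mk' M) B) M).g h1 h3
  have h2 : IsZero (groupHomology ((res (QuotientGroup.mk' M) B).ofQuotient M) 1) := h4
  rwa [ofQuotient_res] at h2

/-- second homology of the quotient -/
theorem h2_quot_zero (hG : ∀ A : Rep.{0} k G, IsZero (groupHomology A 2))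
    (hM : commutator M = ⊤) (A : Rep.{0} k (G ⧸ M)) : IsZero (groupHomology A 2) := by
  obtain ⟨B, P, i, p, w, hX, hP⟩ := exists_cover A
  -- restriction to `G`
  have hY : ((ShortComplex.mk i p w).map (resFunctor (QuotientGroup.mk' M))).ShortExact :=
    hX.map_of_exact _
  have h1 := groupHomology.mapShortComplex₁_exact hY (i := 2) (j := 1) rfl
  have hB : IsZero (groupHomology (res (QuotientGroup.mk' M) B) 1) := by
    refine h1.isZero_of_both_zeros ?_ ?_
    · exact IsZero.eq_of_src (hG _) _ _
    · exact IsZero.eq_of_tgt (h1_res_zero M hM P (hP 0)) _ _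
  have hB' : IsZero (groupHomology B 1) := h1_quot_zero M B hB
  have h3 := groupHomology.mapShortComplex₃_exact hX (i := 2) (j := 1) rfl
  refine h3.isZero_of_both_zeros ?_ ?_
  · exact IsZero.eq_of_src (hP 1) _ _
  · exact IsZero.eq_of_tgt hB' _ _

end

/-- vanishing of the second homology of all modules implies vanishing of the higher homology -/
theorem higher {k : Type} [CommRing k] {Q : Type} [Group Q] (h : ∀ A : Rep.{0} k Q, IsZero (groupHomology A 2)) (n : ℕ) :
    ∀ A : Rep.{0} k Q, IsZero (groupHomology A (n + 2)) := by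
  induction n with
  | zero => exact h
  | succ n ih =>
    intro A
    obtain ⟨B, P, i, p, w, hX, hP⟩ := exists_cover A
    have h3 := groupHomology.mapShortComplex₃_exact hX (i := n + 1 + 2) (j := n + 2) rfl
    refine h3.isZero_of_both_zeros ?_ ?_
    · exact IsZero.eq_of_src (hP (n + 2)) _ _
    · exact IsZero.eq_of_tgt (ih B) _ _

theorem hd_quot4 {G : Type} [Group G]
    (hG : ∀ (A : Rep.{0} ℤ G) (n : ℕ), 2 ≤ n → Subsingleton (groupHomology A n))
    (M : Subgroup G) [M.Normal] (hM : commutator M = ⊤) :
    ∀ (A : Rep.{0} ℤ (G ⧸ M)) (n : ℕ), 2 ≤ n → Subsingleton (groupHomology A n) := by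
  intro A n hn
  have h2 : ∀ A : Rep.{0} ℤ (G ⧸ M), IsZero (groupHomology A 2) := by
    apply h2_quot_zero M _ hM
    intro A
    have := hG A 2 le_rfl
    exact ModuleCat.isZero_of_subsingleton _
  obtain ⟨m, rfl⟩ : ∃ m, n = m + 2 := ⟨n - 2, by omega⟩
  exact ModuleCat.subsingleton_of_isZero (higher h2 m A)

end Pool.Agent.HGR
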